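import Pool.Agent.Helper15.T6.Stmts
import Pool.Agent.Helper59.T4.WICK
import Pool.Agent.Helper15.T4.REC
import Pool.Agent.Helper88.T4.IBP

set_option autoImplicit false

/-! MP_2f9829_co, T6 module WICKR: Wick's formula for coordinates. -/

namespace Pool.Agent.Helper61.T6

open Finset MeasureTheory
open Pool.Agent.Helper15.T4 (IsPM PM cov IsMat nsq po pairC GI ST_WICK)
open Pool.Agent.Helper15.T6

theorem pairC_ind {H ι : Type} [Fintype ι] [DecidableEq ι] (σ : H → ι) (h h' : H) :
    pairC (fun h i => if σ h = i then (1 : ℂ) else 0) s(h, h') =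
      if σ h = σ h' then 1 else 0 := by
  unfold pairC
  rw [Sym2.lift_mk]
  simp [eq_comm]

theorem prod_pairC {H ι : Type} [Fintype ι] [DecidableEq ι] (σ : H → ι)
    (M : Finset (Sym2 H)) [Decidable (Eqn M σ)] :
    ∏ e ∈ M, pairC (fun h i => if σ h = i then (1 : ℂ) else 0) e =
      if Eqn M σ then 1 else 0 := by
  split_ifs with hE
  · refine Finset.prod_eq_one fun e he => ?_
    induction e using Sym2.ind with
    | _ a b => rw [pairC_ind, if_pos (hE a b he)]
  · unfold Eqn at hE
    push Not at hE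
    obtain ⟨a, b, hab, hne⟩ := hE
    refine Finset.prod_eq_zero hab ?_
    rw [pairC_ind, if_neg hne]

theorem WICKR_of (hW : ST_WICK) : ST_WICKR := by
  classical
  intro H ι _ _ s σ
  have h1 := hW H ι s (fun h i => if σ h = i then (1 : ℂ) else 0)
  have h2 : ∑ M ∈ PM s, ∏ e ∈ M, pairC (fun h i => if σ h = i then (1 : ℂ) else 0) e =
      ((((PM s).filter (fun M => Eqn M σ)).card : ℝ) : ℂ) := by
    rw [Finset.sum_congr rfl fun M _ => prod_pairC σ M, Finset.sum_ite]
    simp
  have h3 : GI (fun x : ι → ℝ => ∏ h ∈ s, ∑ i, (if σ h = i then (1 : ℂ) else 0) * (x i : ℂ)) =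
      ((GR (fun x : ι → ℝ => ∏ h ∈ s, x (σ h)) : ℝ) : ℂ) := by
    unfold GI GR
    rw [Complex.ofReal_mul, ← integral_complex_ofReal]
    congr 1
    refine integral_congr_ae (Filter.Eventually.of_forall fun x => ?_)
    simp
  rw [h2, h3] at h1
  have h4 := Complex.ofReal_injective h1
  convert h4

theorem st_WICKR : ST_WICKR :=
  WICKR_of (Pool.Agent.Helper59.T4.WICK Pool.Agent.Helper15.T4.REC Pool.Agent.Helper88.T4.IBP)

end Pool.Agent.Helper61.T6
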